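import Mathlib
import Pool.Agent.H.MP_4977a6_gt.Main

set_option autoImplicit false

namespace Pool.Agent.Results.MP_367a9a_gt.Fin

open Set Pool.Agent.H.MP_4977a6_gt

theorem result : ∃ (X : Type) (_ : TopologicalSpace X), T35Space X ∧
    (¬ ∃ ρ : List (Set (Set X)) → Set (Set X), (∀ l, KC (ρ l)) ∧
      ∀ F : ℕ → Set (Set X), (∀ n, (F n).Finite ∧ F n ⊆ ρ (hist F n)) → ¬ KC (⋃ n, F n)) ∧
    ¬ ∃ σ : List (Set (Set X)) → Set (Set X) → Set (Set X),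
      ∀ 𝒰 : ℕ → Set (Set X), (∀ n, KC (𝒰 n)) →
        (∀ n, (σ (hist 𝒰 n) (𝒰 n)).Finite ∧ σ (hist 𝒰 n) (𝒰 n) ⊆ 𝒰 n) ∧
          KC (⋃ n, σ (hist 𝒰 n) (𝒰 n)) := by
  refine ⟨X, inferInstance, inferInstance, fun ⟨ρ, h1, h2⟩ => ?_, fun ⟨σ, h⟩ => ?_⟩
  · obtain ⟨U, h3, h4⟩ := one hP (ρ := fun l => ρ (l.map singleton)) fun l => h1 _
    refine h2 (fun n => {U n}) (fun n => ⟨finite_singleton _, singleton_subset_iff.2 ?_⟩) ?_
    · rw [← hist_map (fun U : Set X => ({U} : Set (Set X))) U n]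
      exact h3 n
    · rwa [iUnion_singleton_eq_range]
  · obtain ⟨𝒰, h1, h2⟩ := two σ
    exact h2 (h 𝒰 h1).1 (h 𝒰 h1).2.2.1

end Pool.Agent.Results.MP_367a9a_gt.Fin
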