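import Mathlib
import Pool.Agent.H.MP_4977a6_gt.Main

set_option autoImplicit false

namespace Pool.Agent.Results.MP_367a9a_gt.One

open Set Pool.Agent.H.MP_4977a6_gt

theorem result : ∃ (X : Type) (_ : TopologicalSpace X), T35Space X ∧
    (¬ ∃ ρ : List (Set X) → Set (Set X), (∀ l, KC (ρ l)) ∧
      ∀ U : ℕ → Set X, (∀ n, U n ∈ ρ (hist U n)) → ¬ KC (range U)) ∧
    ¬ ∃ σ : List (Set (Set X)) → Set (Set X) → Set X,
      ∀ 𝒰 : ℕ → Set (Set X), (∀ n, KC (𝒰 n)) →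
        (∀ n, σ (hist 𝒰 n) (𝒰 n) ∈ 𝒰 n) ∧ KC (range fun n => σ (hist 𝒰 n) (𝒰 n)) := by
  refine ⟨X, inferInstance, inferInstance, fun ⟨ρ, h1, h2⟩ => ?_, fun ⟨σ, h⟩ => ?_⟩
  · obtain ⟨U, h3, h4⟩ := one hP h1
    exact h2 U h3 h4
  · obtain ⟨𝒰, h1, h2⟩ := two fun l 𝒱 => {σ l 𝒱}
    refine h2 (fun n => ⟨finite_singleton _, singleton_subset_iff.2 ((h 𝒰 h1).1 n)⟩) ?_
    rw [iUnion_singleton_eq_range]
    exact (h 𝒰 h1).2.2.1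

end Pool.Agent.Results.MP_367a9a_gt.One
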